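import Pool.Agent.Helper33.Toric5

/-!
`MP_69eae4_al`: toric ideals of bounded powers of edge ideals are generated by symmetric exchange
binomials.
-/

set_option autoImplicit false

namespace Pool.Agent.Results.MP_69eae4_al.EdgeToricSymExchange

open MvPolynomial Helper33.Toric

variable {n : ℕ}

/-- Edge ideal `I(G)`, generated by the `x_i x_j` with `ij` an edge of `G`. -/
noncomputable def edgeIdeal (K : Type*) [Field K] (G : SimpleGraph (Fin n)) :
    Ideal (MvPolynomial (Fin n) K) :=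
  Ideal.span {p | ∃ i j, G.Adj i j ∧ p = X i * X j}

/-- `(I(G)^q)_c`: the ideal generated by the monomials of `I(G)^q` whose exponent vector is at
most `c`. -/
noncomputable def boundedPower (K : Type*) [Field K] (G : SimpleGraph (Fin n)) (c : Fin n → ℕ)
    (q : ℕ) : Ideal (MvPolynomial (Fin n) K) :=
  Ideal.span {p | ∃ a : Fin n →₀ ℕ, (∀ i, a i ≤ c i) ∧ monomial a (1 : K) ∈ edgeIdeal K G ^ q ∧
    p = monomial a 1}

/-- `δ_c(I(G))`: the largest `q` with `(I(G)^q)_c ≠ 0`. -/
noncomputable def delta (K : Type*) [Field K] (G : SimpleGraph (Fin n)) (c : Fin n → ℕ) : ℕ :=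
  sSup {q | boundedPower K G c q ≠ ⊥}

/-- Exponent vectors of the minimal monomial generators of a monomial ideal: the monomials of
the ideal that are minimal for divisibility. -/
def minGens {K : Type*} [Field K] (I : Ideal (MvPolynomial (Fin n) K)) : Set (Fin n →₀ ℕ) :=
  {a | monomial a (1 : K) ∈ I ∧ ∀ b : Fin n →₀ ℕ, b ≤ a → monomial b (1 : K) ∈ I → b = a}

/-- `𝓑(G, c)`, as a set of exponent vectors. -/
def baseSet (K : Type*) [Field K] (G : SimpleGraph (Fin n)) (c : Fin n → ℕ) :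
    Set (Fin n →₀ ℕ) :=
  minGens (boundedPower K G c (delta K G c))

/-- Toric ideal of a set `B` of monomials (given by exponent vectors): the kernel of
`K[z_b : b ∈ B] → K[x_1, ..., x_n]`, `z_b ↦ x^b`. -/
noncomputable def toricIdeal (K : Type*) [Field K] (B : Set (Fin n →₀ ℕ)) :
    Ideal (MvPolynomial B K) :=
  RingHom.ker (aeval (fun b : B => monomial (b : Fin n →₀ ℕ) (1 : K)) :
    MvPolynomial B K →ₐ[K] MvPolynomial (Fin n) K)

/-- Symmetric exchange binomials `z_i z_j - z_{i₀} z_{j₀}` of `B`, where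
`w_{i₀} = x_ρ w_i / x_ξ` and `w_{j₀} = x_ξ w_j / x_ρ`, `a_ξ > b_ξ` and `a_ρ < b_ρ`. -/
def symExchange (K : Type*) [Field K] (B : Set (Fin n →₀ ℕ)) : Set (MvPolynomial B K) :=
  {p | ∃ (i j i₀ j₀ : B) (ξ ρ : Fin n),
    (j : Fin n →₀ ℕ) ξ < (i : Fin n →₀ ℕ) ξ ∧ (i : Fin n →₀ ℕ) ρ < (j : Fin n →₀ ℕ) ρ ∧
    (i₀ : Fin n →₀ ℕ) + Finsupp.single ξ 1 = (i : Fin n →₀ ℕ) + Finsupp.single ρ 1 ∧
    (j₀ : Fin n →₀ ℕ) + Finsupp.single ρ 1 = (j : Fin n →₀ ℕ) + Finsupp.single ξ 1 ∧
    p = X i * X j - X i₀ * X j₀}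

section ideals

variable {K : Type*} [Field K] {G : SimpleGraph (Fin n)} {c : Fin n → ℕ}

/-- exponent vectors that are sums of `q` edges -/
def edgeExps (G : SimpleGraph (Fin n)) (q : ℕ) : Set (Fin n →₀ ℕ) := {a | EdgeSum G q ⇑a}

theorem edgeIdeal_eq : edgeIdeal K G =
    Ideal.span ((fun s => monomial s (1 : K)) '' {a | ∃ i j, G.Adj i j ∧
      a = Finsupp.single i 1 + Finsupp.single j 1}) := by
  unfold edgeIdeal
  congr 1
  ext p
  simp only [Set.mem_ofPred_eq, Set.mem_image]
  constructor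
  · rintro ⟨i, j, h, rfl⟩
    refine ⟨_, ⟨i, j, h, rfl⟩, ?_⟩
    simp [X, monomial_mul]
  · rintro ⟨a, ⟨i, j, h, rfl⟩, rfl⟩
    refine ⟨i, j, h, ?_⟩
    simp [X, monomial_mul]

theorem edgeIdeal_pow (q : ℕ) : edgeIdeal K G ^ q =
    Ideal.span ((fun s => monomial s (1 : K)) '' edgeExps G q) := by
  induction q with
  | zero =>
    have : edgeExps G 0 = {0} := by
      ext a
      simp only [edgeExps, EdgeSum, Set.mem_ofPred_eq, Set.mem_singleton_iff]
      constructor
      · intro h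
        ext i
        exact congrFun h i
      · rintro rfl; rfl
    rw [this, pow_zero, Set.image_singleton, Ideal.one_eq_top]
    symm
    rw [Ideal.eq_top_iff_one]
    exact Ideal.subset_span (by simp)
  | succ q ih =>
    rw [pow_succ, ih, edgeIdeal_eq, Ideal.span_mul_span']
    congr 1
    ext p
    simp only [Set.mem_mul, Set.mem_image, edgeExps, Set.mem_ofPred_eq]
    constructor
    · rintro ⟨_, ⟨a, ha, rfl⟩, _, ⟨_, ⟨i, j, hij, rfl⟩, rfl⟩, rfl⟩
      refine ⟨a + (Finsupp.single i 1 + Finsupp.single j 1), ⟨⇑a, i, j, hij, ha, ?_⟩, ?_⟩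
      · rw [Finsupp.coe_add, Finsupp.coe_add, Finsupp.single_eq_pi_single,
          Finsupp.single_eq_pi_single, add_assoc]
      · simp [monomial_mul]
    · rintro ⟨a, ⟨b, i, j, hij, hb, hab⟩, rfl⟩
      refine ⟨_, ⟨Finsupp.equivFunOnFinite.symm b, ?_, rfl⟩, _, ⟨_, ⟨i, j, hij, rfl⟩, rfl⟩, ?_⟩
      · simpa using hb
      · have hexp : Finsupp.equivFunOnFinite.symm b +
            (Finsupp.single i 1 + Finsupp.single j 1) = a := by
          ext z
          have := congrFun hab z
          rw [this]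
          simp [Finsupp.single_eq_pi_single, add_assoc]
        rw [monomial_mul, one_mul, hexp]

theorem monomial_mem_span {S : Set (Fin n →₀ ℕ)} {a : Fin n →₀ ℕ} :
    monomial a (1 : K) ∈ Ideal.span ((fun s => monomial s (1 : K)) '' S) ↔ ∃ s ∈ S, s ≤ a := by
  classical
  rw [mem_ideal_span_monomial_image]
  simp [support_monomial]

theorem boundedPower_eq (q : ℕ) : boundedPower K G c q =
    Ideal.span ((fun s => monomial s (1 : K)) ''
      {a | (∀ i, a i ≤ c i) ∧ ∃ b ∈ edgeExps G q, b ≤ a}) := by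
  unfold boundedPower
  congr 1
  ext p
  simp only [Set.mem_ofPred_eq, Set.mem_image, edgeIdeal_pow, monomial_mem_span]
  constructor
  · rintro ⟨a, h1, h2, rfl⟩
    exact ⟨a, ⟨h1, h2⟩, rfl⟩
  · rintro ⟨a, ⟨h1, h2⟩, rfl⟩
    exact ⟨a, h1, h2, rfl⟩

theorem monomial_mem_boundedPower {q : ℕ} {a : Fin n →₀ ℕ} :
    monomial a (1 : K) ∈ boundedPower K G c q ↔
      ∃ b ∈ edgeExps G q, (∀ i, b i ≤ c i) ∧ b ≤ a := by
  rw [boundedPower_eq, monomial_mem_span]
  constructor
  · rintro ⟨s, ⟨h1, b, h2, h3⟩, h4⟩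
    exact ⟨b, h2, fun i => (h3 i).trans (h1 i), h3.trans h4⟩
  · rintro ⟨b, h1, h2, h3⟩
    exact ⟨b, ⟨h2, b, h1, le_rfl⟩, h3⟩

theorem boundedPower_ne_bot {q : ℕ} :
    boundedPower K G c q ≠ ⊥ ↔ ∃ b ∈ edgeExps G q, ∀ i, b i ≤ c i := by
  constructor
  · intro h
    by_contra hno
    push Not at hno
    apply h
    rw [boundedPower_eq, Ideal.span_eq_bot]
    rintro p ⟨a, ⟨h1, b, h2, h3⟩, -⟩
    exfalso
    obtain ⟨i, hi⟩ := hno b h2
    exact absurd ((h3 i).trans (h1 i)) (not_le.2 hi)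
  · rintro ⟨b, h1, h2⟩ h
    have : monomial b (1 : K) ∈ boundedPower K G c q :=
      monomial_mem_boundedPower.2 ⟨b, h1, h2, le_rfl⟩
    rw [h, Ideal.mem_bot, monomial_eq_zero] at this
    exact one_ne_zero this

variable (K G c) in
theorem delta_isGreatest : IsGreatest {q | boundedPower K G c q ≠ ⊥} (delta K G c) := by
  have hne : {q | boundedPower K G c q ≠ ⊥}.Nonempty := by
    refine ⟨0, boundedPower_ne_bot.2 ⟨0, rfl, fun i => by simp⟩⟩
  have hbdd : BddAbove {q | boundedPower K G c q ≠ ⊥} := by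
    refine ⟨∑ i, c i, ?_⟩
    intro q hq
    obtain ⟨b, h1, h2⟩ := boundedPower_ne_bot.1 hq
    have h3 : ∑ i, b i = 2 * q := EdgeSum.sum_eq h1
    have h4 : ∑ i, b i ≤ ∑ i, c i := Finset.sum_le_sum (fun i _ => h2 i)
    omega
  exact ⟨Nat.sSup_mem hne hbdd, fun q hq => le_csSup hbdd hq⟩

theorem mem_baseSet {a : Fin n →₀ ℕ} :
    a ∈ baseSet K G c ↔ InB G c (delta K G c) ⇑a := by
  unfold baseSet minGens InB
  rw [Set.mem_ofPred_eq]
  constructor
  · rintro ⟨h1, h2⟩
    obtain ⟨b, g1, g2, g3⟩ := monomial_mem_boundedPower.1 h1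
    have := h2 b g3 (monomial_mem_boundedPower.2 ⟨b, g1, g2, le_rfl⟩)
    rw [← this]
    exact ⟨g1, g2⟩
  · rintro ⟨h1, h2⟩
    refine ⟨monomial_mem_boundedPower.2 ⟨a, h1, h2, le_rfl⟩, ?_⟩
    intro b hb hbI
    obtain ⟨b', g1, g2, g3⟩ := monomial_mem_boundedPower.1 hbI
    have e1 : ∑ i, b' i = 2 * delta K G c := EdgeSum.sum_eq g1
    have e2 : ∑ i, a i = 2 * delta K G c := EdgeSum.sum_eq h1
    have e3 : ∀ i, b' i = a i := by
      have := (Finset.sum_eq_sum_iff_of_le (s := Finset.univ) (f := fun i => b' i)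
        (g := fun i => a i) (fun i _ => (g3.trans hb) i)).1 (e1.trans e2.symm)
      intro i
      exact this i (by simp)
    have e4 : b' = a := Finsupp.ext e3
    exact le_antisymm hb (e4 ▸ g3)

theorem delta_max (q : ℕ) (a : Fin n → ℕ) (h : EdgeSum G q a) (hc : ∀ x, a x ≤ c x) :
    q ≤ delta K G c := by
  apply (delta_isGreatest K G c).2
  refine boundedPower_ne_bot.2 ⟨Finsupp.equivFunOnFinite.symm a, ?_, ?_⟩
  · simpa [edgeExps] using h
  · intro i
    simpa using hc i

theorem delta_pos (h : ∃ i j, G.Adj i j ∧ 0 < c i ∧ 0 < c j) : 0 < delta K G c := by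
  obtain ⟨i, j, hij, hi, hj⟩ := h
  refine delta_max (K := K) 1 (0 + Pi.single i 1 + Pi.single j 1) ⟨0, i, j, hij, rfl, rfl⟩ ?_
  intro x
  by_cases h1 : x = i
  · subst h1
    have hne : x ≠ j := hij.ne
    simp [hne]; omega
  · by_cases h2 : x = j
    · subst h2
      simp [h1]; omega
    · simp [h1, h2]

end ideals

section toric

variable {K : Type*} [Field K] {G : SimpleGraph (Fin n)} {c : Fin n → ℕ}

/-- the monomial of `T` attached to a list of bases -/
noncomputable def mon (K : Type*) [Field K] {B : Set (Fin n →₀ ℕ)} (l : List B) :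
    MvPolynomial B K := (l.map (fun b => X b)).prod

/-- the sum of a list of bases -/
noncomputable def tot {B : Set (Fin n →₀ ℕ)} (l : List B) : Fin n →₀ ℕ := (l.map (fun b => (b : Fin n →₀ ℕ))).sum

theorem aeval_mon {B : Set (Fin n →₀ ℕ)} (l : List B) :
    (aeval (fun b : B => monomial (b : Fin n →₀ ℕ) (1 : K)) :
      MvPolynomial B K →ₐ[K] MvPolynomial (Fin n) K) (mon K l) = monomial (tot l) 1 := by
  induction l with
  | nil => simp [mon, tot]
  | cons b l ih =>
    have h1 : mon K (b :: l) = X b * mon K l := by simp [mon]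
    have h2 : tot (b :: l) = (b : Fin n →₀ ℕ) + tot l := by simp [tot]
    rw [h1, h2, map_mul, ih, aeval_X, monomial_mul, one_mul]

theorem exists_list {B : Set (Fin n →₀ ℕ)} (u : B →₀ ℕ) :
    ∃ l : List B, monomial u (1 : K) = mon K l := by
  induction u using Finsupp.induction_linear with
  | zero => exact ⟨[], by simp [mon]⟩
  | add u v hu hv =>
    obtain ⟨l, hl⟩ := hu
    obtain ⟨l', hl'⟩ := hv
    refine ⟨l ++ l', ?_⟩
    have : mon K (l ++ l') = mon K l * mon K l' := by simp [mon]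
    rw [this, ← hl, ← hl', monomial_mul, one_mul]
  | single b k =>
    refine ⟨List.replicate k b, ?_⟩
    have : mon K (List.replicate k b) = X b ^ k := by simp [mon]
    rw [this, X_pow_eq_monomial]

theorem sum_tot {δ : ℕ} {B : Set (Fin n →₀ ℕ)} (hB : ∀ b ∈ B, EdgeSum G δ ⇑b) (l : List B) :
    ∑ i, tot l i = 2 * δ * l.length := by
  induction l with
  | nil => simp [tot]
  | cons b l ih =>
    have h2 : tot (b :: l) = (b : Fin n →₀ ℕ) + tot l := by simp [tot]
    have h3 : ∑ i, (b : Fin n →₀ ℕ) i = 2 * δ := EdgeSum.sum_eq (hB b b.2)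
    rw [h2]
    simp only [Finsupp.add_apply, Finset.sum_add_distrib, ih, h3, List.length_cons]
    ring

theorem mk_mon_eq (hδ : 0 < delta K G c) {l l' : List (baseSet K G c)} (h : tot l = tot l') :
    Ideal.Quotient.mk (Ideal.span (symExchange K (baseSet K G c))) (mon K l) =
      Ideal.Quotient.mk (Ideal.span (symExchange K (baseSet K G c))) (mon K l') := by
  classical
  set I := Ideal.span (symExchange K (baseSet K G c)) with hI
  -- equal lengths
  have hlen : l'.length = l.length := by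
    have e1 := sum_tot (G := G) (δ := delta K G c) (fun b hb => (mem_baseSet.1 hb).1) l
    have e2 := sum_tot (G := G) (δ := delta K G c) (fun b hb => (mem_baseSet.1 hb).1) l'
    rw [h, e2] at e1
    have h2 : 0 < 2 * delta K G c := by omega
    exact Nat.eq_of_mul_eq_mul_left h2 e1
  let F : (Fin n → ℕ) → MvPolynomial (baseSet K G c) K ⧸ I := fun a =>
    if h : Finsupp.equivFunOnFinite.symm a ∈ baseSet K G c then
      Ideal.Quotient.mk I (X ⟨_, h⟩) else 1
  have hF : ∀ b : baseSet K G c, F ⇑(b : Fin n →₀ ℕ) = Ideal.Quotient.mk I (X b) := by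
    intro b
    have hb : Finsupp.equivFunOnFinite.symm ⇑(b : Fin n →₀ ℕ) = (b : Fin n →₀ ℕ) := by
      ext i; simp
    have hb' : Finsupp.equivFunOnFinite.symm ⇑(b : Fin n →₀ ℕ) ∈ baseSet K G c := by
      rw [hb]; exact b.2
    simp only [F, dif_pos hb']
    congr 2
    exact Subtype.ext hb
  have hex : ∀ (a b a' b' : Fin n → ℕ) (x y : Fin n), InB G c (delta K G c) a →
      InB G c (delta K G c) b → InB G c (delta K G c) a' → InB G c (delta K G c) b' →
      b x < a x → a y < b y → a' + Pi.single x 1 = a + Pi.single y 1 →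
      b' + Pi.single y 1 = b + Pi.single x 1 → F a * F b = F a' * F b' := by
    intro a b a' b' x y ha hb ha' hb' hx hy h1 h2
    have lift : ∀ a, InB G c (delta K G c) a → ∃ α : baseSet K G c,
        ⇑(α : Fin n →₀ ℕ) = a := by
      intro a ha
      refine ⟨⟨Finsupp.equivFunOnFinite.symm a, mem_baseSet.2 (by simpa using ha)⟩, ?_⟩
      funext i; simp
    obtain ⟨α, rfl⟩ := lift a ha
    obtain ⟨β, rfl⟩ := lift b hb
    obtain ⟨α', rfl⟩ := lift a' ha'
    obtain ⟨β', rfl⟩ := lift b' hb'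
    rw [hF, hF, hF, hF, ← map_mul, ← map_mul, Ideal.Quotient.eq]
    apply Ideal.subset_span
    refine ⟨α, β, α', β', x, y, hx, hy, ?_, ?_, rfl⟩
    · ext z
      have := congrFun h1 z
      simpa [Finsupp.single_eq_pi_single] using this
    · ext z
      have := congrFun h2 z
      simpa [Finsupp.single_eq_pi_single] using this
  have hM : ∀ l : List (baseSet K G c), Ideal.Quotient.mk I (mon K l) =
      ∏ i : Fin l.length, F ⇑((l.get i : baseSet K G c) : Fin n →₀ ℕ) := by
    intro l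
    unfold mon
    rw [map_list_prod, List.map_map]
    simp only [hF]
    rw [← List.prod_ofFn]
    congr 1
    apply List.ext_get (by simp)
    intro k h1 h2
    simp
  have hT : ∀ l : List (baseSet K G c), ⇑(tot l) =
      ∑ i : Fin l.length, ⇑((l.get i : baseSet K G c) : Fin n →₀ ℕ) := by
    intro l
    induction l with
    | nil => simp [tot]
    | cons b l ih =>
      have h2 : tot (b :: l) = (b : Fin n →₀ ℕ) + tot l := by simp [tot]
      rw [h2, Finsupp.coe_add, ih]
      show _ = ∑ i : Fin (l.length + 1), _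
      rw [Fin.sum_univ_succ]
      rfl
  have e1 : ∏ i : Fin l'.length, F ⇑((l'.get i : baseSet K G c) : Fin n →₀ ℕ) =
      ∏ i : Fin l.length, F ⇑((l'.get (Fin.cast hlen.symm i) : baseSet K G c) : Fin n →₀ ℕ) := by
    rw [← Equiv.prod_comp (finCongr hlen.symm)]
    rfl
  have e2 : ∑ i : Fin l'.length, ⇑((l'.get i : baseSet K G c) : Fin n →₀ ℕ) =
      ∑ i : Fin l.length, ⇑((l'.get (Fin.cast hlen.symm i) : baseSet K G c) : Fin n →₀ ℕ) := by
    rw [← Equiv.sum_comp (finCongr hlen.symm)]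
    rfl
  rw [hM l, hM l', e1]
  refine core (G := G) (c := c) (δ := delta K G c) (fun q a => delta_max q a) F hex _
    (fun i => ⇑((l.get i : baseSet K G c) : Fin n →₀ ℕ))
    (fun i => ⇑((l'.get (Fin.cast hlen.symm i) : baseSet K G c) : Fin n →₀ ℕ)) ?_ ?_ ?_ rfl
  · intro i
    exact mem_baseSet.1 (l.get i).2
  · intro i
    exact mem_baseSet.1 (l'.get _).2
  · rw [← e2, ← hT, ← hT, h]

theorem toric_le (hδ : 0 < delta K G c) :
    toricIdeal K (baseSet K G c) ≤ Ideal.span (symExchange K (baseSet K G c)) := by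
  classical
  intro f hf
  set I := Ideal.span (symExchange K (baseSet K G c)) with hI
  have hf0 : (aeval (fun b : baseSet K G c => monomial (b : Fin n →₀ ℕ) (1 : K)) :
    MvPolynomial (baseSet K G c) K →ₐ[K] MvPolynomial (Fin n) K) f = 0 := hf
  let s : (Fin n →₀ ℕ) → MvPolynomial (baseSet K G c) K ⧸ I := fun d =>
    if h : ∃ l : List (baseSet K G c), tot l = d then Ideal.Quotient.mk I (mon K h.choose) else 0
  have hs : ∀ l : List (baseSet K G c), s (tot l) = Ideal.Quotient.mk I (mon K l) := by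
    intro l
    have h : ∃ l' : List (baseSet K G c), tot l' = tot l := ⟨l, rfl⟩
    simp only [s, dif_pos h]
    exact mk_mon_eq hδ h.choose_spec
  let σ : MvPolynomial (Fin n) K →ₗ[K] MvPolynomial (baseSet K G c) K ⧸ I :=
    (basisMonomials (Fin n) K).constr K s
  have hσ : ∀ d, σ (monomial d 1) = s d := by
    intro d
    have := (basisMonomials (Fin n) K).constr_basis K s d
    simpa [σ] using this
  have key : σ.comp (aeval (fun b : baseSet K G c => monomial (b : Fin n →₀ ℕ) (1 : K)) :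
      MvPolynomial (baseSet K G c) K →ₐ[K] MvPolynomial (Fin n) K).toLinearMap =
      (Ideal.Quotient.mkₐ K I).toLinearMap := by
    apply (basisMonomials (baseSet K G c) K).ext
    intro u
    obtain ⟨l, hl⟩ := exists_list (K := K) u
    simp only [coe_basisMonomials, LinearMap.comp_apply, AlgHom.toLinearMap_apply]
    rw [hl, aeval_mon, hσ, hs]
    rfl
  have := LinearMap.congr_fun key f
  simp only [LinearMap.comp_apply, AlgHom.toLinearMap_apply, hf0, map_zero] at this
  exact Ideal.Quotient.eq_zero_iff_mem.1 this.symm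

end toric

/-- **Q1, positive.** For every field `K`, every finite simple graph `G` on `{1, ..., n}` and every
`c` such that `G` has an edge `ij` with `c_i, c_j > 0` (automatic for `n ≥ 1`, no isolated vertices
and `c` positive), the toric ideal of `𝓑(G, c)` is generated by the symmetric exchange binomials
of `𝓑(G, c)`. -/
theorem result (K : Type*) [Field K] (n : ℕ) (G : SimpleGraph (Fin n)) (c : Fin n → ℕ)
    (h : ∃ i j, G.Adj i j ∧ 0 < c i ∧ 0 < c j) :
    toricIdeal K (baseSet K G c) = Ideal.span (symExchange K (baseSet K G c)) := by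
  apply le_antisymm (toric_le (delta_pos h))
  rw [Ideal.span_le]
  rintro p ⟨i, j, i₀, j₀, ξ, ρ, -, -, h1, h2, rfl⟩
  show (aeval (fun b : baseSet K G c => monomial (b : Fin n →₀ ℕ) (1 : K)) :
    MvPolynomial (baseSet K G c) K →ₐ[K] MvPolynomial (Fin n) K) _ = 0
  rw [map_sub, map_mul, map_mul, aeval_X, aeval_X, aeval_X, aeval_X, monomial_mul, monomial_mul,
    one_mul, sub_eq_zero]
  have e0 : (i : Fin n →₀ ℕ) + (j : Fin n →₀ ℕ) + (Finsupp.single ξ 1 + Finsupp.single ρ 1) =
      (i₀ : Fin n →₀ ℕ) + (j₀ : Fin n →₀ ℕ) + (Finsupp.single ξ 1 + Finsupp.single ρ 1) := by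
    have e : (i₀ : Fin n →₀ ℕ) + Finsupp.single ξ 1 + ((j₀ : Fin n →₀ ℕ) + Finsupp.single ρ 1) =
      (i : Fin n →₀ ℕ) + Finsupp.single ρ 1 + ((j : Fin n →₀ ℕ) + Finsupp.single ξ 1) := by
      rw [h1, h2]
    rw [add_add_add_comm] at e
    rw [e]
    abel
  rw [add_right_cancel e0]

end Pool.Agent.Results.MP_69eae4_al.EdgeToricSymExchange
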